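import Mathlib

/-! Words, self-alignments and limit colours (for MP_7ae277_co). -/

namespace H330L1

open Filter

/-- delete the zero letters -/
def z (l : List ℤ) : List ℤ := l.filter (fun a => decide (a ≠ 0))

@[simp] lemma z_nil : z [] = [] := rfl

@[simp] lemma z_append (a b : List ℤ) : z (a ++ b) = z a ++ z b := by
  simp [z]

@[simp] lemma z_cons_zero (a : List ℤ) : z (0 :: a) = z a := by
  simp [z]

lemma z_cons_ne {x : ℤ} (hx : x ≠ 0) (a : List ℤ) : z (x :: a) = x :: z a := by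
  simp [z, hx]

/-- `G ⇒ H` with cost `c`: a list of columns `(x, v)` such that the words of `x + v` and of `x - v` are `G`,
the word of `x` is `H`, and the cost is `∑ |v|`. -/
def Rel (G H : List ℤ) (c : ℕ) : Prop :=
  ∃ L : List (ℤ × ℤ), z (L.map fun p => p.1 + p.2) = z G ∧ z (L.map fun p => p.1 - p.2) = z G ∧
    z (L.map fun p => p.1) = z H ∧ (L.map fun p => p.2.natAbs).sum = c

lemma Rel.refl (G : List ℤ) : Rel G G 0 := by
  refine ⟨G.map (fun a => (a, 0)), ?_, ?_, ?_, ?_⟩ <;> simp [List.map_map, Function.comp_def]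

lemma Rel.append {G H G' H' : List ℤ} {c c' : ℕ} (h : Rel G H c) (h' : Rel G' H' c') :
    Rel (G ++ G') (H ++ H') (c + c') := by
  obtain ⟨L, a1, a2, a3, a4⟩ := h
  obtain ⟨L', b1, b2, b3, b4⟩ := h'
  refine ⟨L ++ L', ?_, ?_, ?_, ?_⟩ <;> simp_all

lemma Rel.congr {G H G' H' : List ℤ} {c : ℕ} (h : Rel G H c) (hG : z G = z G') (hH : z H = z H') :
    Rel G' H' c := by
  obtain ⟨L, a1, a2, a3, a4⟩ := h
  exact ⟨L, a1.trans hG, a2.trans hG, a3.trans hH, a4⟩

/-- the ultrafilter limit of a sequence in a finite type -/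
lemma exists_ulim {α : Type*} [Finite α] (f : ℕ → α) :
    ∃ a : α, ∀ᶠ i in (hyperfilter ℕ : Filter ℕ), f i = a := by
  obtain ⟨a, ha⟩ := Ultrafilter.eq_pure_of_finite ((hyperfilter ℕ).map f)
  refine ⟨a, ?_⟩
  have : ({a} : Set α) ∈ (hyperfilter ℕ).map f := by rw [ha]; exact Set.mem_singleton a
  exact this

noncomputable def ulim {α : Type*} [Finite α] (f : ℕ → α) : α := (exists_ulim f).choose

lemma ulim_spec {α : Type*} [Finite α] (f : ℕ → α) :
    ∀ᶠ i in (hyperfilter ℕ : Filter ℕ), f i = ulim f := (exists_ulim f).choose_spec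

lemma ulim_const {α : Type*} [Finite α] (a : α) : ulim (fun _ => a) = a := by
  have h := ulim_spec (fun _ : ℕ => a)
  obtain ⟨i, hi⟩ := h.exists
  exact hi.symm

/-- limit colour of the word `w` based at `b` -/
noncomputable def C {α : Type*} [Finite α] (φ : (ℕ → ℤ) → α) : List ℤ → (ℕ → ℤ) → α
  | [], b => φ b
  | a :: w, b => ulim (fun i => C φ w (b + Pi.single i a))

lemma C_z {α : Type*} [Finite α] (φ : (ℕ → ℤ) → α) (w : List ℤ) (b : ℕ → ℤ) : C φ (z w) b = C φ w b := by
  induction w generalizing b with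
  | nil => rfl
  | cons a w ih =>
    by_cases ha : a = 0
    · subst ha
      rw [z_cons_zero, ih]
      simp [C, ulim_const]
    · rw [z_cons_ne ha]
      simp only [C]
      congr 1
      funext i
      exact ih _

/-- extraction of actual positions -/
lemma extract {α : Type*} [Finite α] (φ : (ℕ → ℤ) → α) (L : List (ℤ × ℤ)) (b0 b1 b2 : ℕ → ℤ) (m : ℕ) :
    ∃ (X V : ℕ → ℤ) (m' : ℕ), m ≤ m' ∧ (∀ i, i < m → V i = 0) ∧ (∀ i, m' ≤ i → V i = 0) ∧
      (∀ i, m' ≤ i → X i = 0) ∧
      φ (b0 + X) = C φ (L.map fun p => p.1) b0 ∧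
      φ (b1 + (X + V)) = C φ (L.map fun p => p.1 + p.2) b1 ∧
      φ (b2 + (X - V)) = C φ (L.map fun p => p.1 - p.2) b2 ∧
      ∑ i ∈ Finset.range m', (V i).natAbs = (L.map fun p => p.2.natAbs).sum := by
  induction L generalizing b0 b1 b2 m with
  | nil =>
    refine ⟨0, 0, m, le_rfl, ?_, ?_, ?_, ?_, ?_, ?_, ?_⟩ <;> simp [C]
  | cons p L ih =>
    obtain ⟨x, v⟩ := p
    have h0 := ulim_spec (fun i => C φ (L.map fun p => p.1) (b0 + Pi.single i x))
    have h1 := ulim_spec (fun i => C φ (L.map fun p => p.1 + p.2) (b1 + Pi.single i (x + v)))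
    have h2 := ulim_spec (fun i => C φ (L.map fun p => p.1 - p.2) (b2 + Pi.single i (x - v)))
    have h3 : ∀ᶠ i in (hyperfilter ℕ : Filter ℕ), m ≤ i := by
      exact (eventually_ge_atTop m).filter_mono Nat.hyperfilter_le_atTop
    obtain ⟨i, e0, e1, e2, e3⟩ := (h0.and (h1.and (h2.and h3))).exists
    obtain ⟨X, V, m', hm, hV1, hV2, hX2, c0, c1, c2, hs⟩ :=
      ih (b0 + Pi.single i x) (b1 + Pi.single i (x + v)) (b2 + Pi.single i (x - v)) (i + 1)
    refine ⟨Pi.single i x + X, Pi.single i v + V, m', by omega, ?_, ?_, ?_, ?_, ?_, ?_, ?_⟩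
    · intro j hj
      have : j ≠ i := by omega
      simp [Pi.single_apply, this, hV1 j (by omega)]
    · intro j hj
      have : j ≠ i := by omega
      simp [Pi.single_apply, this, hV2 j hj]
    · intro j hj
      have : j ≠ i := by omega
      simp [Pi.single_apply, this, hX2 j hj]
    · rw [← add_assoc, c0]
      exact e0
    · have : b1 + (Pi.single i x + X + (Pi.single i v + V)) = b1 + Pi.single i (x + v) + (X + V) := by
        rw [Pi.single_add]; abel
      rw [this, c1]
      exact e1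
    · have : b2 + (Pi.single i x + X - (Pi.single i v + V)) = b2 + Pi.single i (x - v) + (X - V) := by
        rw [Pi.single_sub]; abel
      rw [this, c2]
      exact e2
    · rw [List.map_cons, List.sum_cons, ← hs]
      have hi : i ∈ Finset.range m' := Finset.mem_range.mpr (by omega)
      rw [← Finset.add_sum_erase _ _ hi, ← Finset.add_sum_erase _ (fun j => (V j).natAbs) hi]
      have hVi : V i = 0 := hV1 i (by omega)
      simp only [Pi.add_apply, Pi.single_eq_same, hVi, add_zero, Int.natAbs_zero, zero_add]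
      congr 1
      apply Finset.sum_congr rfl
      intro j hj
      have : j ≠ i := Finset.ne_of_mem_erase hj
      simp [Pi.single_apply, this]

/-- from a clique of words to the theorem -/
theorem of_clique (k d : ℕ) (T : ℕ → List ℤ) (hT : ∀ i j, i < j → j ≤ k → Rel (T j) (T i) d) :
    ∃ n : ℕ, ∀ c : (Fin n → ℤ) → Fin k,
      ∃ x v : Fin n → ℤ, (∑ i, |v i|) = (d : ℤ) ∧ c (x - v) = c x ∧ c x = c (x + v) := by
  by_contra hcon
  push Not at hcon
  choose c hc using hcon
  set φ : (ℕ → ℤ) → Fin k := fun x => ulim (fun n => c n (fun i => x i)) with hφ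
  -- pigeonhole
  have hpig : ∃ i j : ℕ, i < j ∧ j ≤ k ∧ C φ (T i) 0 = C φ (T j) 0 := by
    have hcard : Fintype.card (Fin k) < Fintype.card (Fin (k + 1)) := by simp
    obtain ⟨i, j, hij, he⟩ := Fintype.exists_ne_map_eq_of_card_lt (fun i : Fin (k + 1) => C φ (T i) 0) hcard
    rcases lt_or_gt_of_ne hij with h | h
    · exact ⟨i, j, h, by omega, he⟩
    · exact ⟨j, i, h, by omega, he.symm⟩
  obtain ⟨i, j, hij, hjk, he⟩ := hpig
  obtain ⟨L, l1, l2, l3, l4⟩ := hT i j hij hjk
  obtain ⟨X, V, m', -, -, hV2, -, c0, c1, c2, hs⟩ := extract φ L 0 0 0 0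
  rw [zero_add, ← C_z, l3, C_z] at c0
  rw [zero_add, ← C_z, l1, C_z] at c1
  rw [zero_add, ← C_z, l2, C_z] at c2
  have u0 := ulim_spec (fun n => c n (fun i => X i))
  have u1 := ulim_spec (fun n => c n (fun i => (X + V) i))
  have u2 := ulim_spec (fun n => c n (fun i => (X - V) i))
  have u3 : ∀ᶠ n in (hyperfilter ℕ : Filter ℕ), m' ≤ n :=
    (eventually_ge_atTop m').filter_mono Nat.hyperfilter_le_atTop
  obtain ⟨n, e0, e1, e2, e3⟩ := (u0.and (u1.and (u2.and u3))).exists
  have f0 : c n (fun i => X i) = C φ (T i) 0 := e0.trans c0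
  have f1 : c n (fun i => (X + V) i) = C φ (T j) 0 := e1.trans c1
  have f2 : c n (fun i => (X - V) i) = C φ (T j) 0 := e2.trans c2
  have hsum : (∑ i : Fin n, |V i|) = (d : ℤ) := by
    rw [Fin.sum_univ_eq_sum_range (fun i => |V i|) n, ← l4, ← hs]
    push_cast
    rw [← Finset.sum_subset (Finset.range_subset_range.mpr e3)]
    intro x _ hx
    rw [Finset.mem_range, not_lt] at hx
    simp [hV2 x hx]
  apply hc n (fun i => X i) (fun i => V i) hsum
  · have : (fun i : Fin n => X i) - (fun i : Fin n => V i) = fun i : Fin n => (X - V) i := rfl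
    rw [this, f2, f0, he]
  · have : (fun i : Fin n => X i) + (fun i : Fin n => V i) = fun i : Fin n => (X + V) i := rfl
    rw [this, f1, f0, he]

end H330L1
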