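import Pool.Agent.H330R3.L1.A

namespace H330L1

/-- `w` repeated `m` times -/
def rep (m : ℕ) (w : List ℤ) : List ℤ := (List.replicate m w).flatten

@[simp] lemma rep_zero (w : List ℤ) : rep 0 w = [] := by simp [rep]

lemma rep_succ (m : ℕ) (w : List ℤ) : rep (m + 1) w = w ++ rep m w := by
  simp [rep, List.replicate_succ]

lemma rep_add (m n : ℕ) (w : List ℤ) : rep (m + n) w = rep m w ++ rep n w := by
  induction m with
  | zero => simp
  | succ m ih => rw [Nat.add_right_comm, rep_succ, rep_succ, ih, List.append_assoc]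

lemma rep_succ' (m : ℕ) (w : List ℤ) : rep (m + 1) w = rep m w ++ w := by
  rw [rep_add, rep_succ 0]; simp

lemma Rel.rep {G H : List ℤ} {c1 c2 : ℕ} (h1 : Rel G H c1) (h2 : Rel G H c2) (a b : ℕ) :
    Rel (rep (a + b) G) (rep (a + b) H) (a * c2 + b * c1) := by
  have e1 : ∀ (c : ℕ), Rel G H c → ∀ a : ℕ, Rel (H330L1.rep a G) (H330L1.rep a H) (a * c) := by
    intro c hc a
    induction a with
    | zero => simpa using Rel.refl []
    | succ a ih =>
      rw [rep_succ, rep_succ]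
      have := hc.append ih
      convert this using 1
      ring
  rw [rep_add, rep_add]
  exact (e1 c2 h2 a).append (e1 c1 h1 b)

/-- from a gadget to a clique -/
theorem clique_of_gadget {G H : List ℤ} {c1 c2 : ℕ} (h1 : Rel G H c1) (h2 : Rel G H c2) (k : ℕ)
    (hlt : c1 < c2) (hk : k * c1 ≤ c2) :
    ∀ i j : ℕ, i < j → j ≤ k →
      Rel (rep ((c2 - c1) * j) G ++ rep ((c2 - c1) * (k - j)) H)
        (rep ((c2 - c1) * i) G ++ rep ((c2 - c1) * (k - i)) H) ((c2 - c1) * c2) := by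
  intro i j hij hjk
  obtain ⟨m, rfl⟩ : ∃ m, c2 = c1 + m := ⟨c2 - c1, by omega⟩
  have hm : c1 + m - c1 = m := by omega
  rw [hm]
  obtain ⟨r, rfl⟩ : ∃ r, j = i + (r + 1) := ⟨j - i - 1, by omega⟩
  have hrk : (r + 1) * c1 ≤ c1 + m := le_trans (Nat.mul_le_mul_right _ (by omega)) hk
  -- split
  have s1 : rep (m * (i + (r + 1))) G = rep (m * i) G ++ rep (m * (r + 1)) G := by
    rw [mul_add, rep_add]
  have s2 : rep (m * (k - i)) H = rep (m * (r + 1)) H ++ rep (m * (k - (i + (r + 1)))) H := by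
    rw [← rep_add, ← mul_add]
    congr 2
    omega
  rw [s1, s2]
  -- number of expensive copies
  obtain ⟨a, ha⟩ : ∃ a, a + r * c1 = m := ⟨m - r * c1, by
    have : r * c1 ≤ m := by nlinarith
    omega⟩
  have hle : a ≤ m * (r + 1) := by nlinarith
  obtain ⟨b, hb⟩ : ∃ b, a + b = m * (r + 1) := ⟨m * (r + 1) - a, by omega⟩
  have hmid := Rel.rep h1 h2 a b
  rw [hb] at hmid
  have hcost : a * (c1 + m) + b * c1 = m * (c1 + m) := by
    have e1 : b = m * (r + 1) - a := by omega
    zify [hle] at *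
    have e2 : (b:ℤ) = m * (r + 1) - a := by linarith
    rw [e2]
    have e3 : (a:ℤ) = m - r * c1 := by linarith
    rw [e3]; ring
  rw [hcost] at hmid
  have := ((Rel.refl (rep (m * i) G)).append hmid).append (Rel.refl (rep (m * (k - (i + (r + 1)))) H))
  simp only [List.append_assoc, zero_add, add_zero] at this
  simpa only [List.append_assoc] using this

/-- partial concatenations of a sequence of words -/
def Vl (e : ℕ → List ℤ) : ℕ → List ℤ
  | 0 => []
  | n + 1 => Vl e n ++ e n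

/-- reversed partial concatenations of a sequence of words -/
def Ql (f : ℕ → List ℤ) : ℕ → List ℤ
  | 0 => []
  | n + 1 => f n ++ Ql f n

lemma Vl_succ (e : ℕ → List ℤ) (n : ℕ) : Vl e (n + 1) = e 0 ++ Vl (fun i => e (i + 1)) n := by
  induction n with
  | zero => simp [Vl]
  | succ n ih =>
    rw [Vl, ih]
    simp [Vl]

lemma Ql_succ (f : ℕ → List ℤ) (n : ℕ) : Ql f (n + 1) = Ql (fun i => f (i + 1)) n ++ f 0 := by
  induction n with
  | zero => simp [Ql]
  | succ n ih =>
    rw [Ql, ih]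
    simp [Ql]

lemma Rel.Vl {e : ℕ → List ℤ} {ε : ℕ → ℕ} (n : ℕ) (h : ∀ i, i < n → Rel (e i) (e (i + 1)) (ε i)) :
    Rel (Vl e n) (Vl (fun i => e (i + 1)) n) (∑ i ∈ Finset.range n, ε i) := by
  induction n with
  | zero => simpa [H330L1.Vl] using Rel.refl []
  | succ n ih =>
    rw [Finset.sum_range_succ]
    exact (ih (fun i hi => h i (by omega))).append (h n (by omega))

lemma Rel.Ql {f : ℕ → List ℤ} {ε : ℕ → ℕ} (n : ℕ) (h : ∀ i, i < n → Rel (f i) (f (i + 1)) (ε i)) :
    Rel (Ql f n) (Ql (fun i => f (i + 1)) n) (∑ i ∈ Finset.range n, ε i) := by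
  induction n with
  | zero => simpa [H330L1.Ql] using Rel.refl []
  | succ n ih =>
    rw [Finset.sum_range_succ, add_comm (∑ i ∈ Finset.range n, ε i)]
    exact (h n (by omega)).append (ih (fun i hi => h i (by omega)))

/-- The commuting-square gadget. `e 0 ⇒ e 1 ⇒ ⋯ ⇒ e (m+1)` and `f 0 ⇒ ⋯ ⇒ f (m+1)` with equal
start and equal end. The word `P` can be turned into `R` and into `R·e 0` and `e 0·R`. -/
theorem gadget {e f : ℕ → List ℤ} {ε φ : ℕ → ℕ} (m : ℕ)
    (he : ∀ i, i < m + 1 → Rel (e i) (e (i + 1)) (ε i))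
    (hf : ∀ i, i < m + 1 → Rel (f i) (f (i + 1)) (φ i))
    (h0 : e 0 = f 0) (hm : e (m + 1) = f (m + 1))
    {P R : List ℤ} {κ : ℕ} (hP : Rel P R κ) (hP1 : Rel P (R ++ e 0) κ) (hP2 : Rel P (e 0 ++ R) κ) :
    ∃ G H : List ℤ, Rel G H (∑ i ∈ Finset.range (m + 1), ε i + 2 * κ) ∧
      Rel G H (∑ i ∈ Finset.range (m + 1), φ i + 2 * κ) := by
  set Y : List ℤ := H330L1.Vl (fun i => e (i + 1)) (m + 1) ++ H330L1.Ql (fun i => f (i + 1)) m with hY
  refine ⟨P ++ (H330L1.Vl e (m + 1) ++ H330L1.Ql f (m + 1)) ++ P, R ++ e 0 ++ (Y ++ f 0) ++ R, ?_, ?_⟩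
  · have a1 := (Rel.Vl (m + 1) he).append (Rel.refl (H330L1.Ql f (m + 1)))
    have a2 : H330L1.Vl (fun i => e (i + 1)) (m + 1) ++ H330L1.Ql f (m + 1) = Y ++ f 0 := by
      rw [hY, Ql_succ, List.append_assoc]
    rw [a2] at a1
    have := (hP1.append a1).append hP
    convert this using 1
    ring
  · have a1 := (Rel.refl (H330L1.Vl e (m + 1))).append (Rel.Ql (m + 1) hf)
    have a2 : H330L1.Vl e (m + 1) ++ H330L1.Ql (fun i => f (i + 1)) (m + 1) = e 0 ++ Y := by
      rw [hY, Vl_succ]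
      have : H330L1.Ql (fun i => f (i + 1)) (m + 1) = f (m + 1) ++ H330L1.Ql (fun i => f (i + 1)) m := rfl
      rw [this, ← hm]
      have : H330L1.Vl (fun i => e (i + 1)) (m + 1) = H330L1.Vl (fun i => e (i + 1)) m ++ e (m + 1) := rfl
      rw [this]
      simp only [List.append_assoc]
    rw [a2] at a1
    have := (hP.append a1).append hP2
    rw [← h0]
    simp only [List.append_assoc] at this ⊢
    convert this using 1
    ring

end H330L1
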