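import Pool.Agent.H330R3.L1.B

namespace H330L1

/-- two-word version of `Rel` -/
def Rel2 (G G' H : List ℤ) (c : ℕ) : Prop :=
  ∃ L : List (ℤ × ℤ), z (L.map fun p => p.1 + p.2) = z G ∧ z (L.map fun p => p.1 - p.2) = z G' ∧
    z (L.map fun p => p.1) = z H ∧ (L.map fun p => p.2.natAbs).sum = c

lemma Rel2.append {G G' H K K' M : List ℤ} {c c' : ℕ} (h : Rel2 G G' H c) (h' : Rel2 K K' M c') :
    Rel2 (G ++ K) (G' ++ K') (H ++ M) (c + c') := by
  obtain ⟨L, a1, a2, a3, a4⟩ := h
  obtain ⟨L', b1, b2, b3, b4⟩ := h'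
  refine ⟨L ++ L', ?_, ?_, ?_, ?_⟩ <;> simp_all

lemma Rel2.rep {G G' H : List ℤ} {c : ℕ} (h : Rel2 G G' H c) (n : ℕ) :
    Rel2 (rep n G) (rep n G') (rep n H) (n * c) := by
  induction n with
  | zero => exact ⟨[], by simp⟩
  | succ n ih =>
    rw [rep_succ, rep_succ, rep_succ]
    convert h.append ih using 1
    ring

lemma z_eq_nil {l : List ℤ} (h : ∀ a ∈ l, a = 0) : z l = [] := by
  unfold z
  rw [List.filter_eq_nil_iff]
  intro a ha
  simp [h a ha]

lemma rep_rot (u w : List ℤ) (n : ℕ) : u ++ rep n (w ++ u) ++ w = rep (n + 1) (u ++ w) := by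
  induction n with
  | zero => simp [rep_succ]
  | succ n ih =>
    rw [rep_succ, rep_succ (n + 1), ← ih]
    simp only [List.append_assoc]

section
variable (a : List ℤ)

/-- the sum of the absolute values -/
def S : ℕ := (a.map Int.natAbs).sum

lemma blk1 : Rel2 (a.map (fun t => 2 * t)) [] a (S a) := by
  refine ⟨a.map (fun t => (t, t)), ?_, ?_, ?_, ?_⟩
  · simp only [List.map_map]
    congr 2
    funext t; simp only [Function.comp]; ring
  · rw [z_nil]; apply z_eq_nil; intro b hb; simp at hb; omega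
  · simp [List.map_map, Function.comp_def]
  · simp [List.map_map, Function.comp_def, S]

lemma blk4 : Rel2 [] (a.map (fun t => -2 * t)) (a.map (fun t => -t)) (S a) := by
  refine ⟨a.map (fun t => (-t, t)), ?_, ?_, ?_, ?_⟩
  · rw [z_nil]; apply z_eq_nil; intro b hb; simp at hb; omega
  · simp only [List.map_map]
    congr 2
    funext t; simp only [Function.comp]; ring
  · simp [List.map_map, Function.comp_def]
  · simp [List.map_map, Function.comp_def, S]

lemma S_two : (a.map (fun t => (2 * t).natAbs)).sum = 2 * S a := by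
  unfold S
  rw [← List.sum_map_mul_left]
  congr 1
  apply List.map_congr_left
  intro t _
  rw [Int.natAbs_mul]; rfl

lemma blk2 : Rel2 (a.map (fun t => -2 * t)) (a.map (fun t => 2 * t)) [] (2 * S a) := by
  refine ⟨a.map (fun t => (0, -2 * t)), ?_, ?_, ?_, ?_⟩
  · simp only [List.map_map]
    congr 2
    funext t; simp only [Function.comp]; ring
  · simp only [List.map_map]
    congr 2
    funext t; simp only [Function.comp]; ring
  · rw [z_nil]; apply z_eq_nil; intro b hb; simp at hb; omega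
  · rw [← S_two, List.map_map]
    congr 1
    apply List.map_congr_left
    intro t _
    simp only [Function.comp]
    rw [show (-2 * t) = -(2 * t) by ring, Int.natAbs_neg]

lemma blk3 : Rel2 (a.map (fun t => 2 * t)) (a.map (fun t => -2 * t)) [] (2 * S a) := by
  refine ⟨a.map (fun t => (0, 2 * t)), ?_, ?_, ?_, ?_⟩
  · simp only [List.map_map]
    congr 2
    funext t; simp only [Function.comp]; ring
  · simp only [List.map_map]
    congr 2
    funext t; simp only [Function.comp]; ring
  · rw [z_nil]; apply z_eq_nil; intro b hb; simp at hb; omega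
  · rw [← S_two, List.map_map]
    rfl

/-- the auxiliary word -/
def Pw (n : ℕ) : List ℤ := rep (n + 1) (a.map (fun t => 2 * t) ++ a.map (fun t => -2 * t))

def Rw : List ℤ := a ++ a.map (fun t => -t)

lemma Pw_full (n : ℕ) : Rel (Pw a n) (Rw a) (4 * (n + 1) * S a) := by
  have h := (((blk1 a).append (((blk2 a).append (blk3 a)).rep n)).append (blk2 a)).append (blk4 a)
  obtain ⟨L, h1, h2, h3, h4⟩ := h
  refine ⟨L, ?_, ?_, ?_, ?_⟩
  · rw [h1, Pw, ← rep_rot]
    simp
  · rw [h2, Pw, rep_succ']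
    simp
  · rw [h3, Rw]
    have : ∀ n, rep n (([] : List ℤ) ++ []) = [] := by
      intro n
      induction n with
      | zero => simp
      | succ n ih => rw [rep_succ, ih]; simp
    rw [this]
    simp
  · rw [h4]; ring

lemma Pw_sep (n : ℕ) : Rel (Pw a n) (rep (n + 1) (Rw a)) (4 * (n + 1) * S a) := by
  have h := (((blk1 a).append (blk2 a)).append (blk4 a)).rep (n + 1)
  obtain ⟨L, h1, h2, h3, h4⟩ := h
  refine ⟨L, ?_, ?_, ?_, ?_⟩
  · rw [h1, Pw]; simp
  · rw [h2, Pw]; simp
  · rw [h3, Rw]; simp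
  · rw [h4]; ring

end

/-- the list of values of `f` on the window `[-N, N)` -/
def win (N : ℕ) (f : ℤ → ℤ) : List ℤ := (List.range (2 * N)).map (fun i : ℕ => f ((i : ℤ) - N))

/-- the cost functional on the window -/
def cost (N : ℕ) (v : ℤ → ℤ) : ℕ := ∑ i ∈ Finset.range (2 * N), (v ((i : ℤ) - N)).natAbs

lemma z_split (g : ℕ → ℤ) (u m r : ℕ) (h1 : ∀ i, i < u → g i = 0) (h2 : ∀ i, u + m ≤ i → g i = 0) :
    z ((List.range (u + m + r)).map g) = z ((List.range m).map (fun i => g (u + i))) := by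
  rw [List.range_add, List.range_add, List.map_append, List.map_append, z_append, z_append]
  have e1 : z ((List.range u).map g) = [] := by
    apply z_eq_nil
    intro b hb
    rw [List.mem_map] at hb
    obtain ⟨i, hi, rfl⟩ := hb
    exact h1 i (List.mem_range.mp hi)
  have e2 : z ((List.map (fun x => u + m + x) (List.range r)).map g) = [] := by
    apply z_eq_nil
    intro b hb
    rw [List.mem_map] at hb
    obtain ⟨i, hi, rfl⟩ := hb
    rw [List.mem_map] at hi
    obtain ⟨j, hj, rfl⟩ := hi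
    exact h2 _ (by omega)
  rw [e1, e2, List.map_map]
  simp [Function.comp_def]

/-- `f` vanishes outside `(-R, R)` -/
def Supp (f : ℤ → ℤ) (R : ℕ) : Prop := ∀ l : ℤ, (R : ℤ) ≤ |l| → f l = 0

lemma z_win_shift {f : ℤ → ℤ} {R N : ℕ} (hf : Supp f R) (s : ℤ) (hs : |s| + R ≤ N) :
    z (win N (fun l => f (l + s))) = z ((List.range (2 * R)).map (fun i : ℕ => f ((i:ℤ) - R))) := by
  have hs1 := abs_le.mp (show |s| ≤ (N:ℤ) - R by linarith)
  obtain ⟨u, hu⟩ : ∃ u : ℕ, (u : ℤ) = N - R - s := ⟨(N - R - s : ℤ).toNat, by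
    rw [Int.toNat_of_nonneg]; linarith [hs1.2]⟩
  obtain ⟨r, hr⟩ : ∃ r : ℕ, (r : ℤ) = N - R + s := ⟨(N - R + s : ℤ).toNat, by
    rw [Int.toNat_of_nonneg]; linarith [hs1.1]⟩
  have hsum : 2 * N = u + 2 * R + r := by omega
  unfold win
  rw [hsum, z_split _ u (2 * R) r]
  · congr 1
    apply List.map_congr_left
    intro i _
    show f (((u + i : ℕ) : ℤ) - N + s) = f ((i:ℤ) - R)
    congr 1
    push_cast
    omega
  · intro i hi
    apply hf
    rw [abs_of_nonpos (by omega)]
    omega
  · intro i hi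
    apply hf
    rw [abs_of_nonneg (by omega)]
    omega

lemma z_win_shift' {f : ℤ → ℤ} {R N : ℕ} (hf : Supp f R) (s : ℤ) (hs : |s| + R ≤ N) :
    z (win N (fun l => f (l + s))) = z (win N f) := by
  rw [z_win_shift hf s hs]
  have := z_win_shift (N := N) hf 0 (by
    have := abs_nonneg s
    simp only [abs_zero, zero_add]; linarith)
  simp only [add_zero] at this
  exact this.symm

lemma Rel.ofFun {x v : ℤ → ℤ} {N : ℕ} {G H : List ℤ} (h1 : z (win N (fun l => x l + v l)) = z G)
    (h2 : z (win N (fun l => x l - v l)) = z G) (h3 : z (win N x) = z H) : Rel G H (cost N v) := by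
  refine ⟨(List.range (2 * N)).map (fun i : ℕ => (x ((i:ℤ) - N), v ((i:ℤ) - N))), ?_, ?_, ?_, ?_⟩
  · rw [← h1]; simp [win, List.map_map, Function.comp_def]
  · rw [← h2]; simp [win, List.map_map, Function.comp_def]
  · rw [← h3]; simp [win, List.map_map, Function.comp_def]
  · simp only [List.map_map, Function.comp_def, cost]
    rfl

def Aop (f : ℤ → ℤ) : ℤ → ℤ := fun l => f (l - 1) + f (l + 1)
def Kop (P : ℤ) (f : ℤ → ℤ) : ℤ → ℤ := fun l => f l + f (l - P)

lemma Supp.smul {f : ℤ → ℤ} {R : ℕ} (hf : Supp f R) (c : ℤ) : Supp (fun l => c * f l) R := by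
  intro l hl; simp [hf l hl]

lemma Supp.A {f : ℤ → ℤ} {R : ℕ} (hf : Supp f R) : Supp (Aop f) (R + 1) := by
  intro l hl
  have h1 : (R:ℤ) ≤ |l - 1| := by
    have := abs_sub_abs_le_abs_sub l 1
    simp at this; push_cast at hl; linarith
  have h2 : (R:ℤ) ≤ |l + 1| := by
    have := abs_sub_abs_le_abs_sub l (-1)
    simp at this; push_cast at hl; linarith
  simp [Aop, hf _ h1, hf _ h2]

lemma Supp.K {f : ℤ → ℤ} {R P : ℕ} (hf : Supp f R) : Supp (Kop P f) (R + P) := by
  intro l hl
  have h1 : (R:ℤ) ≤ |l| := by push_cast at hl; linarith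
  have h2 : (R:ℤ) ≤ |l - P| := by
    have := abs_sub_abs_le_abs_sub l P
    simp at this; push_cast at hl; linarith
  simp [Kop, hf _ h1, hf _ h2]

lemma Supp.iter {f : ℤ → ℤ} {R : ℕ} (hf : Supp f R) (t : ℕ) : Supp (Aop^[t] f) (R + t) := by
  induction t with
  | zero => simpa using hf
  | succ t ih =>
    rw [Function.iterate_succ_apply']
    exact ih.A

lemma relA {f : ℤ → ℤ} {R N : ℕ} (hf : Supp f R) (hN : R + 1 ≤ N) (c : ℤ) :
    Rel (win N (fun l => 2 * c * f l)) (win N (fun l => c * Aop f l))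
      (cost N (fun l => c * (f (l - 1) - f (l + 1)))) := by
  have hs := hf.smul (2 * c)
  apply Rel.ofFun (x := fun l => c * Aop f l)
  · have := z_win_shift' (N := N) hs (-1) (by simp; omega)
    rw [← this]
    congr 2
    funext l
    simp only [Aop]
    rw [← sub_eq_add_neg]
    ring
  · have := z_win_shift' (N := N) hs 1 (by simp; omega)
    rw [← this]
    congr 2
    funext l
    simp only [Aop]
    ring
  · rfl

lemma relK {f : ℤ → ℤ} {R N P : ℕ} (hf : Supp f R) (hN : R + P ≤ N) (c : ℤ) :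
    Rel (win N (fun l => 2 * c * f l)) (win N (fun l => c * Kop P f l))
      (cost N (fun l => c * (f l - f (l - P)))) := by
  have hs := hf.smul (2 * c)
  apply Rel.ofFun (x := fun l => c * Kop P f l)
  · congr 2
    funext l
    simp only [Kop]
    ring
  · have := z_win_shift' (N := N) hs (-P) (by simp; omega)
    rw [← this]
    congr 2
    funext l
    simp only [Kop]
    rw [← sub_eq_add_neg]
    ring
  · rfl

lemma AK_comm (P : ℤ) : Function.Commute Aop (Kop P) := by
  intro f
  funext l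
  simp only [Aop, Kop]
  rw [show l - 1 - P = l - P - 1 by ring, show l + 1 - P = l - P + 1 by ring]
  ring

end H330L1
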