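import Pool.Agent.H330R3.L1.C

namespace H330L1

/-- the truncated square wave: `2n` half-periods of length `P` -/
def Wv (n P : ℕ) : ℤ → ℤ := fun l =>
  if 0 ≤ l ∧ l < 2 * n * P then (-1) ^ ((l / (P:ℤ)).toNat) else 0

lemma Wv_abs (n P : ℕ) (l : ℤ) : |Wv n P l| ≤ 1 := by
  unfold Wv
  split_ifs
  · rw [abs_pow]; simp
  · simp

lemma Wv_eq {n P : ℕ} (j : ℕ) (hj : j < 2 * n) {l : ℤ} (h1 : (j:ℤ) * P ≤ l) (h2 : l < (j + 1) * P) :
    Wv n P l = (-1) ^ j := by
  have hP : (0:ℤ) < P := by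
    by_contra hcon
    have : (P:ℤ) = 0 := by have := Int.natCast_nonneg P; omega
    rw [this] at h1 h2; linarith
  have hq : l / (P:ℤ) = j := by
    apply le_antisymm
    · have : l / (P:ℤ) < j + 1 := Int.ediv_lt_of_lt_mul hP h2
      omega
    · exact Int.le_ediv_of_mul_le hP h1
  unfold Wv
  rw [if_pos, hq, Int.toNat_natCast]
  have hj' : ((j:ℤ) + 1) ≤ 2 * n := by exact_mod_cast hj
  constructor
  · have : (0:ℤ) ≤ j * P := by positivity
    linarith
  · calc l < (j + 1) * P := h2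
      _ ≤ 2 * n * P := mul_le_mul_of_nonneg_right hj' hP.le

lemma Wv_zero {n P : ℕ} {l : ℤ} (h : l < 0 ∨ 2 * n * P ≤ l) : Wv n P l = 0 := by
  unfold Wv
  rw [if_neg]
  rintro ⟨h1, h2⟩
  rcases h with h | h <;> linarith

lemma Wv_supp (n P : ℕ) : Supp (Wv n P) (2 * n * P) := by
  intro l hl
  apply Wv_zero
  rcases le_total 0 l with h | h
  · right
    rw [abs_of_nonneg h] at hl
    push_cast at hl; exact hl
  · rcases h.lt_or_eq with h' | h'
    · left; exact h'
    · right
      subst h'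
      simp only [abs_zero] at hl
      push_cast at hl; exact hl

lemma Wv_word_aux (c : ℤ) (P : ℕ) (hP : 0 < P) (n : ℕ) :
    (List.range (2 * n * P)).map (fun i : ℕ => c * (-1) ^ (i / P)) =
      rep n (Rw (List.replicate P c)) := by
  induction n with
  | zero => simp
  | succ n ih =>
    have e : 2 * (n + 1) * P = P + P + 2 * n * P := by ring
    rw [e, rep_succ, ← ih, List.range_add, List.range_add, List.map_append, List.map_append, Rw,
      List.map_map, List.map_map]
    congr 1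
    · congr 1
      · rw [List.eq_replicate_iff]
        constructor
        · simp
        · intro b hb
          rw [List.mem_map] at hb
          obtain ⟨i, hi, rfl⟩ := hb
          rw [List.mem_range] at hi
          rw [Nat.div_eq_of_lt hi]; simp
      · rw [List.map_replicate, List.eq_replicate_iff]
        constructor
        · simp
        · intro b hb
          rw [List.mem_map] at hb
          obtain ⟨i, hi, rfl⟩ := hb
          rw [List.mem_range] at hi
          simp only [Function.comp]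
          rw [Nat.add_div_left _ hP, Nat.div_eq_of_lt hi]; simp
    · apply List.map_congr_left
      intro i _
      simp only [Function.comp]
      rw [show P + P + i = i + P * 2 by ring, Nat.add_mul_div_left _ _ hP, pow_add]
      simp

lemma Wv_word (c : ℤ) {n P N : ℕ} (hP : 0 < P) (hN : 2 * n * P ≤ N) :
    z (win N (fun l => c * Wv n P l)) = z (rep n (Rw (List.replicate P c))) := by
  obtain ⟨r, rfl⟩ : ∃ r, N = 2 * n * P + r := ⟨N - 2 * n * P, by omega⟩
  unfold win
  rw [show 2 * (2 * n * P + r) = (2 * n * P + r) + 2 * n * P + r by ring,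
    z_split _ (2 * n * P + r) (2 * n * P) r]
  · congr 1
    rw [← Wv_word_aux c P hP n]
    apply List.map_congr_left
    intro i hi
    rw [List.mem_range] at hi
    have e : (((2 * n * P + r + i : ℕ) : ℤ) - ((2 * n * P + r : ℕ) : ℤ)) = (i : ℤ) := by
      push_cast; ring
    simp only [e]
    congr 1
    apply Wv_eq
    · exact Nat.div_lt_of_lt_mul (by rw [mul_comm]; exact hi)
    · exact_mod_cast Nat.div_mul_le_self i P
    · have := Nat.lt_mul_div_succ i hP
      rw [mul_comm]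
      exact_mod_cast this
  · intro i hi
    show c * Wv n P _ = 0
    rw [Wv_zero (Or.inl ?_), mul_zero]
    have : (i:ℤ) < ((2 * n * P + r : ℕ) : ℤ) := by exact_mod_cast hi
    linarith
  · intro i hi
    show c * Wv n P _ = 0
    rw [Wv_zero (Or.inr ?_), mul_zero]
    have : ((2 * n * P + r + 2 * n * P : ℕ) : ℤ) ≤ (i:ℤ) := by exact_mod_cast hi
    push_cast at this ⊢
    linarith

/-! ### Upper bounds -/

/-- `∑ |f| ≤ M` -/
def NB (f : ℤ → ℤ) (M : ℕ) : Prop := ∀ s : Finset ℤ, ∑ l ∈ s, (f l).natAbs ≤ M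

lemma NB.shift {f : ℤ → ℤ} {M : ℕ} (h : NB f M) (a : ℤ) : NB (fun l => f (l + a)) M := by
  intro s
  have : ∑ l ∈ s, (f (l + a)).natAbs = ∑ l ∈ s.map (addRightEmbedding a), (f l).natAbs := by
    rw [Finset.sum_map]; rfl
  rw [this]; exact h _

lemma NB.add {f g : ℤ → ℤ} {M M' : ℕ} (h : NB f M) (h' : NB g M') : NB (fun l => f l + g l) (M + M') := by
  intro s
  calc ∑ l ∈ s, (f l + g l).natAbs ≤ ∑ l ∈ s, ((f l).natAbs + (g l).natAbs) :=
        Finset.sum_le_sum (fun l _ => Int.natAbs_add_le _ _)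
    _ ≤ M + M' := by rw [Finset.sum_add_distrib]; exact Nat.add_le_add (h s) (h' s)

lemma NB.neg {f : ℤ → ℤ} {M : ℕ} (h : NB f M) : NB (fun l => - f l) M := by
  intro s; simp only [Int.natAbs_neg]; exact h s

lemma NB.smul {f : ℤ → ℤ} {M : ℕ} (h : NB f M) (c : ℕ) : NB (fun l => (c:ℤ) * f l) (c * M) := by
  intro s
  simp only [Int.natAbs_mul, Int.natAbs_natCast]
  rw [← Finset.mul_sum]
  exact Nat.mul_le_mul_left _ (h s)

lemma NB.A {f : ℤ → ℤ} {M : ℕ} (h : NB f M) : NB (Aop f) (2 * M) := by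
  have := (h.shift (-1)).add (h.shift 1)
  rw [two_mul]
  convert this using 1
  funext l
  simp only [Aop]
  rw [← sub_eq_add_neg]

lemma NB.iter {f : ℤ → ℤ} {M : ℕ} (h : NB f M) (t : ℕ) : NB (Aop^[t] f) (2 ^ t * M) := by
  induction t with
  | zero => simpa using h
  | succ t ih =>
    rw [Function.iterate_succ_apply', pow_succ']
    have := ih.A
    rwa [← mul_assoc] at this

lemma cost_le {v : ℤ → ℤ} {M : ℕ} (h : NB v M) (N : ℕ) : cost N v ≤ M := by
  unfold cost
  have hinj : Set.InjOn (fun i : ℕ => (i:ℤ) - N) (Finset.range (2 * N) : Set ℕ) := by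
    intro a _ b _ hab
    simp only at hab
    omega
  rw [← Finset.sum_image (f := fun l => (v l).natAbs) hinj]
  exact h _

lemma Wv_NB (n P : ℕ) : NB (Wv n P) (2 * n * P) := by
  intro s
  calc ∑ l ∈ s, (Wv n P l).natAbs ≤ ∑ l ∈ s, (if l ∈ Finset.Ico (0:ℤ) (2 * n * P) then 1 else 0) := by
        apply Finset.sum_le_sum
        intro l _
        split_ifs with h
        · have := Wv_abs n P l
          rw [Int.abs_eq_natAbs] at this
          omega
        · rw [Wv_zero]; · simp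
          rw [Finset.mem_Ico] at h
          by_contra hcon
          push Not at hcon
          exact h hcon
    _ ≤ (Finset.Ico (0:ℤ) (2 * n * P)).card := by
        rw [← Finset.sum_filter, Finset.sum_const, smul_eq_mul, mul_one]
        apply Finset.card_le_card
        intro l hl
        exact (Finset.mem_filter.mp hl).2
    _ = 2 * n * P := by
        rw [Int.card_Ico]
        have : ((2:ℤ) * n * P - 0) = ((2 * n * P : ℕ) : ℤ) := by push_cast; ring
        rw [this, Int.toNat_natCast]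

lemma KWv_zero {n P : ℕ} {l : ℤ} (h : l ∉ Finset.Ico (0:ℤ) P ∪ Finset.Ico (2 * n * P : ℤ) (2 * n * P + P)) :
    Kop P (Wv n P) l = 0 := by
  rw [Finset.mem_union, not_or, Finset.mem_Ico, Finset.mem_Ico] at h
  obtain ⟨h1, h2⟩ := h
  push Not at h1 h2
  unfold Kop
  rcases lt_or_ge l 0 with hl | hl
  · rw [Wv_zero (Or.inl hl), Wv_zero (Or.inl (by have := Int.natCast_nonneg P; linarith))]; simp
  have hl1 := h1 hl
  rcases lt_or_ge l (2 * n * P) with hl2 | hl2
  · -- interior
    have hP : (0:ℤ) < P := by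
      by_contra hcon
      have : (P:ℤ) = 0 := by have := Int.natCast_nonneg P; omega
      rw [this] at hl2; linarith
    set q := (l / (P:ℤ)) with hq
    have hq1 : 1 ≤ q := Int.le_ediv_of_mul_le hP (by linarith)
    have hq2 : q < 2 * n := Int.ediv_lt_of_lt_mul hP hl2
    obtain ⟨j, hj⟩ : ∃ j : ℕ, q = j + 1 := ⟨(q - 1).toNat, by omega⟩
    have b1 : q * P ≤ l := Int.ediv_mul_le l hP.ne'
    have b2 : l < (q + 1) * P := Int.lt_ediv_add_one_mul_self l hP
    rw [hj] at b1 b2
    rw [Wv_eq (j + 1) (by omega) (by push_cast; exact b1) (by push_cast; exact b2),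
      Wv_eq j (by omega) (by linarith) (by linarith), pow_succ]
    ring
  · have hl3 := h2 hl2
    rw [Wv_zero (Or.inr hl2), Wv_zero (Or.inr (by linarith))]; simp

lemma KWv_abs {n P : ℕ} (l : ℤ) : |Kop P (Wv n P) l| ≤ 1 := by
  unfold Kop
  by_cases h : l ∈ Finset.Ico (0:ℤ) P ∪ Finset.Ico (2 * n * P : ℤ) (2 * n * P + P)
  · rw [Finset.mem_union, Finset.mem_Ico, Finset.mem_Ico] at h
    rcases h with h | h
    · rw [Wv_zero (l := l - P) (Or.inl (by linarith)), add_zero]; exact Wv_abs _ _ _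
    · rw [Wv_zero (l := l) (Or.inr h.1), zero_add]; exact Wv_abs _ _ _
  · have := KWv_zero h
    unfold Kop at this
    rw [this]; simp

lemma KWv_NB (n P : ℕ) : NB (Kop P (Wv n P)) (2 * P) := by
  intro s
  set E := Finset.Ico (0:ℤ) P ∪ Finset.Ico (2 * n * P : ℤ) (2 * n * P + P) with hE
  calc ∑ l ∈ s, (Kop P (Wv n P) l).natAbs ≤ ∑ l ∈ s, (if l ∈ E then 1 else 0) := by
        apply Finset.sum_le_sum
        intro l _
        split_ifs with h
        · have := KWv_abs (n := n) (P := P) l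
          rw [Int.abs_eq_natAbs] at this
          omega
        · rw [KWv_zero h]; simp
    _ ≤ E.card := by
        rw [← Finset.sum_filter, Finset.sum_const, smul_eq_mul, mul_one]
        apply Finset.card_le_card
        intro l hl
        exact (Finset.mem_filter.mp hl).2
    _ ≤ (Finset.Ico (0:ℤ) P).card + (Finset.Ico (2 * n * P : ℤ) (2 * n * P + P)).card := Finset.card_union_le _ _
    _ = 2 * P := by
        rw [Int.card_Ico, Int.card_Ico]
        have e1 : ((P:ℤ) - 0) = P := by ring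
        have e2 : ((2:ℤ) * n * P + P - 2 * n * P) = P := by ring
        rw [e1, e2, Int.toNat_natCast]; ring

/-! ### Lower bound -/

lemma tv (F : ℕ → ℤ) (h J : ℕ) :
    ∑ j ∈ Finset.range J, (F ((j + 1) * h) - F (j * h)).natAbs ≤
      ∑ r ∈ Finset.range (J * h), (F (r + 1) - F r).natAbs := by
  induction J with
  | zero => simp
  | succ J ih =>
    rw [Finset.sum_range_succ, show (J + 1) * h = J * h + h by ring, Finset.sum_range_add]
    apply Nat.add_le_add ih
    have : F (J * h + h) - F (J * h) = ∑ r ∈ Finset.range h, (F (J * h + r + 1) - F (J * h + r)) := by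
      have := Finset.sum_range_sub (fun r => F (J * h + r)) h
      simp only [add_zero] at this
      rw [← this]
      rfl
    rw [this]
    exact Int.natAbs_sum_le _ _

lemma lower_base {n h : ℕ} (j : ℕ) (hj : j < 2 * n) (l : ℤ) :
    4 * (h:ℤ) ^ 2 - 8 * (l - (2 * j + 1) * h) ^ 2 ≤ 4 * (h:ℤ) ^ 2 * ((-1) ^ j * Wv n (2 * h) l) := by
  by_cases hl : |l - (2 * j + 1) * h| < h
  · rw [abs_lt] at hl
    rw [Wv_eq j hj (by push_cast; nlinarith [hl.1]) (by push_cast; nlinarith [hl.2]), ← pow_add,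
      Even.neg_one_pow ⟨j, rfl⟩]
    nlinarith [sq_nonneg (l - (2 * j + 1) * (h:ℤ))]
  · push Not at hl
    have h1 : (h:ℤ) ^ 2 ≤ (l - (2 * j + 1) * h) ^ 2 := by
      rw [← sq_abs (l - (2 * j + 1) * (h:ℤ))]
      exact pow_le_pow_left₀ (by positivity) hl 2
    have h2 : -1 ≤ (-1) ^ j * Wv n (2 * h) l := by
      have := Wv_abs n (2 * h) l
      have h3 : |(-1) ^ j * Wv n (2 * h) l| ≤ 1 := by
        rw [abs_mul, abs_pow]; simpa using this
      exact (abs_le.mp h3).1
    nlinarith [sq_nonneg (h:ℤ)]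

lemma lower {n h : ℕ} (j : ℕ) (hj : j < 2 * n) (t : ℕ) (l : ℤ) :
    2 ^ t * (4 * (h:ℤ) ^ 2 - 8 * ((l - (2 * j + 1) * h) ^ 2 + t)) ≤
      4 * (h:ℤ) ^ 2 * ((-1) ^ j * (Aop^[t] (Wv n (2 * h))) l) := by
  induction t generalizing l with
  | zero => simpa using lower_base j hj l
  | succ t ih =>
    rw [Function.iterate_succ_apply']
    have h1 := ih (l - 1)
    have h2 := ih (l + 1)
    simp only [Aop]
    have e : 2 ^ (t + 1) * (4 * (h:ℤ) ^ 2 - 8 * ((l - (2 * j + 1) * h) ^ 2 + ((t + 1 : ℕ) : ℤ)))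
        = 2 ^ t * (4 * (h:ℤ) ^ 2 - 8 * ((l - 1 - (2 * j + 1) * h) ^ 2 + t)) +
          2 ^ t * (4 * (h:ℤ) ^ 2 - 8 * ((l + 1 - (2 * j + 1) * h) ^ 2 + t)) := by
      push_cast; ring
    rw [e]
    have e2 : 4 * (h:ℤ) ^ 2 * ((-1) ^ j * ((Aop^[t] (Wv n (2 * h))) (l - 1) + (Aop^[t] (Wv n (2 * h))) (l + 1)))
        = 4 * (h:ℤ) ^ 2 * ((-1) ^ j * (Aop^[t] (Wv n (2 * h))) (l - 1)) +
          4 * (h:ℤ) ^ 2 * ((-1) ^ j * (Aop^[t] (Wv n (2 * h))) (l + 1)) := by ring
    rw [e2]
    linarith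

lemma lower_peak {n h : ℕ} (hh : 0 < h) (j : ℕ) (hj : j < 2 * n) {t : ℕ} (ht : 4 * t ≤ h ^ 2) :
    2 ^ t ≤ 2 * ((-1) ^ j * (Aop^[t] (Wv n (2 * h))) ((2 * j + 1) * h)) := by
  have h1 := lower (h := h) j hj t ((2 * j + 1) * h)
  have e : ((2 * (j:ℤ) + 1) * h - (2 * j + 1) * h) ^ 2 = 0 := by ring
  rw [e, zero_add] at h1
  have ht' : 4 * (t:ℤ) ≤ (h:ℤ) ^ 2 := by exact_mod_cast ht
  have hh' : (0:ℤ) < (h:ℤ) ^ 2 := by positivity
  have h2 : 2 ^ t * (2 * (h:ℤ) ^ 2) ≤ 2 ^ t * (4 * (h:ℤ) ^ 2 - 8 * t) := by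
    apply mul_le_mul_of_nonneg_left _ (by positivity)
    linarith
  have h3 := h2.trans h1
  have h4 : 2 * (h:ℤ) ^ 2 * 2 ^ t ≤ 2 * (h:ℤ) ^ 2 * (2 * ((-1) ^ j * (Aop^[t] (Wv n (2 * h))) ((2 * j + 1) * h))) := by
    linarith
  exact le_of_mul_le_mul_left h4 (by positivity)

lemma lower_cost {n h N : ℕ} (hh : 0 < h) {t : ℕ} (ht : 4 * t ≤ h ^ 2) (hN : 2 * n * (2 * h) + 1 ≤ N) (c : ℕ) :
    c * 2 ^ t * (2 * n - 1) ≤ cost N (fun l => (c:ℤ) * ((Aop^[t] (Wv n (2 * h))) (l - 1) - (Aop^[t] (Wv n (2 * h))) (l + 1))) := by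
  set D := Aop^[t] (Wv n (2 * h)) with hD
  set F : ℕ → ℤ := fun r => D (h + 2 * r) with hF
  have h1 := tv F h (2 * n - 1)
  have h2 : 2 ^ t * (2 * n - 1) ≤ ∑ j ∈ Finset.range (2 * n - 1), (F ((j + 1) * h) - F (j * h)).natAbs := by
    have : ∀ j ∈ Finset.range (2 * n - 1), 2 ^ t ≤ (F ((j + 1) * h) - F (j * h)).natAbs := by
      intro j hj
      rw [Finset.mem_range] at hj
      have a1 := lower_peak (n := n) hh j (by omega) ht
      have a2 := lower_peak (n := n) hh (j + 1) (by omega) ht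
      have e1 : F ((j + 1) * h) = D ((2 * ((j + 1 : ℕ) : ℤ) + 1) * h) := by
        simp only [hF]; congr 1; push_cast; ring
      have e2 : F (j * h) = D ((2 * (j : ℤ) + 1) * h) := by
        simp only [hF]; congr 1; push_cast; ring
      rw [← hD, ← e1] at a2
      rw [← hD, ← e2] at a1
      have a3 : (2:ℤ) ^ t ≤ (-1) ^ (j + 1) * (F ((j + 1) * h) - F (j * h)) := by
        have : (-1:ℤ) ^ (j + 1) * (F ((j + 1) * h) - F (j * h)) =
            (-1) ^ (j + 1) * F ((j + 1) * h) + (-1) ^ j * F (j * h) := by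
          rw [pow_succ]; ring
        rw [this]; linarith
      have a4 : (-1:ℤ) ^ (j + 1) * (F ((j + 1) * h) - F (j * h)) ≤ |F ((j + 1) * h) - F (j * h)| := by
        have := le_abs_self ((-1:ℤ) ^ (j + 1) * (F ((j + 1) * h) - F (j * h)))
        rwa [abs_mul, abs_pow, abs_neg, abs_one, one_pow, one_mul] at this
      have a5 := a3.trans a4
      rw [Int.abs_eq_natAbs] at a5
      exact_mod_cast a5
    calc 2 ^ t * (2 * n - 1) = ∑ j ∈ Finset.range (2 * n - 1), 2 ^ t := by
          rw [Finset.sum_const, Finset.card_range, smul_eq_mul, mul_comm]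
      _ ≤ _ := Finset.sum_le_sum this
  have h3 : ∑ r ∈ Finset.range ((2 * n - 1) * h), (F (r + 1) - F r).natAbs ≤
      ∑ i ∈ Finset.range (2 * N), (D ((i:ℤ) - N - 1) - D ((i:ℤ) - N + 1)).natAbs := by
    set g : ℕ → ℕ := fun r => N + h + 2 * r + 1 with hg
    have hinj : Set.InjOn g (Finset.range ((2 * n - 1) * h) : Set ℕ) := by
      intro a _ b _ hab
      simp only [hg] at hab
      omega
    calc ∑ r ∈ Finset.range ((2 * n - 1) * h), (F (r + 1) - F r).natAbs
        = ∑ r ∈ Finset.range ((2 * n - 1) * h), (D (((g r : ℕ):ℤ) - N - 1) - D (((g r : ℕ):ℤ) - N + 1)).natAbs := by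
          apply Finset.sum_congr rfl
          intro r _
          have e1 : (((g r : ℕ):ℤ) - N - 1) = h + 2 * (r:ℤ) := by simp only [hg]; push_cast; ring
          have e2 : (((g r : ℕ):ℤ) - N + 1) = h + 2 * ((r + 1 : ℕ):ℤ) := by simp only [hg]; push_cast; ring
          rw [e1, e2, ← Int.natAbs_neg]
          congr 1
          simp only [hF]; ring
      _ = ∑ i ∈ (Finset.range ((2 * n - 1) * h)).image g, (D ((i:ℤ) - N - 1) - D ((i:ℤ) - N + 1)).natAbs := by
          rw [Finset.sum_image hinj]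
      _ ≤ _ := by
          apply Finset.sum_le_sum_of_subset
          intro i hi
          rw [Finset.mem_image] at hi
          obtain ⟨r, hr, rfl⟩ := hi
          rw [Finset.mem_range] at hr ⊢
          simp only [hg]
          have h5 : (2 * n - 1) * h ≤ 2 * n * h - h := by
            rw [Nat.sub_mul, one_mul]
          have h6 : 2 * n * (2 * h) = 2 * (2 * n * h) := by ring
          omega
  unfold cost
  simp only [Int.natAbs_mul, Int.natAbs_natCast]
  rw [← Finset.mul_sum, mul_assoc]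
  apply Nat.mul_le_mul_left
  exact (h2.trans h1).trans h3

end H330L1
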