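import Pool.Agent.H330R3.L1.D

namespace H330L1

section
variable (n P T N : ℕ)

/-- smoothing path: smooth first, kill last -/
def eS : ℕ → List ℤ := fun t =>
  if t ≤ T then win N (fun l => ((2 ^ (T + 2 - t) : ℕ) : ℤ) * (Aop^[t] (Wv n P)) l)
  else win N (fun l => ((2 : ℕ) : ℤ) * Kop P (Aop^[T] (Wv n P)) l)

/-- kill first, then smooth -/
def fS : ℕ → List ℤ
  | 0 => win N (fun l => ((2 ^ (T + 2) : ℕ) : ℤ) * Wv n P l)
  | t + 1 => win N (fun l => ((2 ^ (T + 1 - t) : ℕ) : ℤ) * (Aop^[t] (Kop P (Wv n P))) l)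

def εS : ℕ → ℕ := fun i =>
  if i < T then cost N (fun l => ((2 ^ (T + 1 - i) : ℕ) : ℤ) * ((Aop^[i] (Wv n P)) (l - 1) - (Aop^[i] (Wv n P)) (l + 1)))
  else cost N (fun l => ((2 : ℕ) : ℤ) * ((Aop^[T] (Wv n P)) l - (Aop^[T] (Wv n P)) (l - P)))

def φS : ℕ → ℕ
  | 0 => cost N (fun l => ((2 ^ (T + 1) : ℕ) : ℤ) * (Wv n P l - Wv n P (l - P)))
  | t + 1 => cost N (fun l => ((2 ^ (T - t) : ℕ) : ℤ) *
      ((Aop^[t] (Kop P (Wv n P))) (l - 1) - (Aop^[t] (Kop P (Wv n P))) (l + 1)))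

variable {n P T N} (hN : 2 * n * P + P + T + 5 ≤ N)
include hN

lemma eS_rel (i : ℕ) (hi : i < T + 1) : Rel (eS n P T N i) (eS n P T N (i + 1)) (εS n P T N i) := by
  rcases lt_or_ge i T with h | h
  · have hs := (Wv_supp n P).iter i
    have := relA hs (N := N) (by omega) ((2 ^ (T + 1 - i) : ℕ) : ℤ)
    unfold eS εS
    rw [if_pos (by omega), if_pos (by omega), if_pos h]
    have e1 : ((2 ^ (T + 2 - i) : ℕ) : ℤ) = 2 * ((2 ^ (T + 1 - i) : ℕ) : ℤ) := by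
      rw [show T + 2 - i = T + 1 - i + 1 by omega, pow_succ]; push_cast; ring
    rw [e1, show T + 2 - (i + 1) = T + 1 - i by omega, Function.iterate_succ_apply']
    exact this
  · obtain rfl : i = T := by omega
    have hs := (Wv_supp n P).iter i
    have := relK hs (N := N) (P := P) (by omega) ((2 : ℕ) : ℤ)
    unfold eS εS
    rw [if_pos le_rfl, if_neg (by omega), if_neg (by omega)]
    rw [show i + 2 - i = 2 by omega]
    have e1 : ((2 ^ 2 : ℕ) : ℤ) = 2 * ((2 : ℕ) : ℤ) := by norm_num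
    rw [e1]
    exact this

lemma fS_rel (i : ℕ) (hi : i < T + 1) : Rel (fS n P T N i) (fS n P T N (i + 1)) (φS n P T N i) := by
  rcases i with _ | t
  · have := relK (Wv_supp n P) (N := N) (P := P) (by omega) ((2 ^ (T + 1) : ℕ) : ℤ)
    unfold fS φS
    have e1 : ((2 ^ (T + 2) : ℕ) : ℤ) = 2 * ((2 ^ (T + 1) : ℕ) : ℤ) := by
      rw [show T + 2 = T + 1 + 1 by omega, pow_succ]; push_cast; ring
    rw [e1]
    exact this
  · have hs := ((Wv_supp n P).K (P := P)).iter t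
    have := relA hs (N := N) (by omega) ((2 ^ (T - t) : ℕ) : ℤ)
    unfold fS φS
    have e1 : ((2 ^ (T + 1 - t) : ℕ) : ℤ) = 2 * ((2 ^ (T - t) : ℕ) : ℤ) := by
      rw [show T + 1 - t = T - t + 1 by omega, pow_succ]; push_cast; ring
    simp only []
    rw [e1, show T + 1 - (t + 1) = T - t by omega, Function.iterate_succ_apply']
    exact this

omit hN in
lemma ef_zero : eS n P T N 0 = fS n P T N 0 := by
  unfold eS fS
  rw [if_pos (Nat.zero_le _)]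
  rfl

omit hN in
lemma ef_end : eS n P T N (T + 1) = fS n P T N (T + 1) := by
  unfold eS fS
  rw [if_neg (by omega)]
  simp only []
  rw [show T + 1 - T = 1 by omega]
  have := ((AK_comm P).iterate_left T) (Wv n P)
  rw [this]
  rfl

lemma eS_word (hP : 0 < P) : z (eS n P T N 0) = z (rep n (Rw (List.replicate P ((2 ^ (T + 2) : ℕ) : ℤ)))) := by
  rw [ef_zero]
  exact Wv_word _ hP (by omega)

omit hN in
lemma φS_zero_le : φS n P T N 0 ≤ 2 ^ (T + 1) * (4 * n * P) := by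
  unfold φS
  apply cost_le
  have h := ((Wv_NB n P).add ((Wv_NB n P).shift (-P)).neg).smul (2 ^ (T + 1))
  have e : 2 ^ (T + 1) * (2 * n * P + 2 * n * P) = 2 ^ (T + 1) * (4 * n * P) := by ring
  rw [e] at h
  exact h

omit hN in
lemma φS_succ_le (t : ℕ) (ht : t < T) : φS n P T N (t + 1) ≤ 2 ^ (T + 1) * (2 * P) := by
  unfold φS
  apply cost_le
  have h0 := (KWv_NB n P).iter t
  have h := ((h0.shift (-1)).add (h0.shift 1).neg).smul (2 ^ (T - t))
  have e : 2 ^ (T - t) * (2 ^ t * (2 * P) + 2 ^ t * (2 * P)) = 2 ^ (T + 1) * (2 * P) := by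
    have : 2 ^ (T + 1) = 2 ^ (T - t) * 2 ^ t * 2 := by
      rw [← pow_add, show T - t + t = T by omega, pow_succ]
    rw [this]; ring
  rw [e] at h
  exact h

omit hN in
lemma φS_sum_le : ∑ i ∈ Finset.range (T + 1), φS n P T N i ≤ 2 ^ (T + 1) * (4 * n * P + T * (2 * P)) := by
  rw [Finset.sum_range_succ']
  have h1 : ∑ i ∈ Finset.range T, φS n P T N (i + 1) ≤ ∑ i ∈ Finset.range T, 2 ^ (T + 1) * (2 * P) :=
    Finset.sum_le_sum (fun i hi => φS_succ_le i (Finset.mem_range.mp hi))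
  rw [Finset.sum_const, Finset.card_range, smul_eq_mul] at h1
  have h2 := φS_zero_le (n := n) (P := P) (T := T) (N := N)
  calc _ ≤ T * (2 ^ (T + 1) * (2 * P)) + 2 ^ (T + 1) * (4 * n * P) := Nat.add_le_add h1 h2
    _ = _ := by ring

end

lemma εS_sum_ge {n h T N : ℕ} (hh : 0 < h) (hT : 4 * T ≤ h ^ 2) (hN : 2 * n * (2 * h) + (2 * h) + T + 5 ≤ N) :
    2 ^ (T + 1) * (T * (2 * n - 1)) ≤ ∑ i ∈ Finset.range (T + 1), εS n (2 * h) T N i := by
  have h1 : ∑ i ∈ Finset.range T, 2 ^ (T + 1) * (2 * n - 1) ≤ ∑ i ∈ Finset.range T, εS n (2 * h) T N i := by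
    apply Finset.sum_le_sum
    intro i hi
    rw [Finset.mem_range] at hi
    unfold εS
    rw [if_pos hi]
    have := lower_cost (n := n) (h := h) (N := N) hh (t := i) (by omega) (by omega) (2 ^ (T + 1 - i))
    have e : 2 ^ (T + 1) = 2 ^ (T + 1 - i) * 2 ^ i := by
      rw [← pow_add]; congr 1; omega
    rw [e]
    exact this
  rw [Finset.sum_const, Finset.card_range, smul_eq_mul] at h1
  rw [Finset.sum_range_succ]
  calc 2 ^ (T + 1) * (T * (2 * n - 1)) = T * (2 ^ (T + 1) * (2 * n - 1)) := by ring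
    _ ≤ _ := h1
    _ ≤ _ := Nat.le_add_right _ _

lemma S_replicate (P : ℕ) (c : ℕ) : S (List.replicate P (c : ℤ)) = P * c := by
  unfold S
  simp

/-- gadgets with arbitrarily large cost ratio -/
theorem exists_gadget (k : ℕ) : ∃ (G H : List ℤ) (c1 c2 : ℕ), Rel G H c1 ∧ Rel G H c2 ∧
    c1 < c2 ∧ k * c1 ≤ c2 := by
  obtain ⟨g, hg⟩ : ∃ g, g = 152 * (k + 2) := ⟨_, rfl⟩
  have hg0 : 0 < g := by omega
  obtain ⟨T, hT⟩ : ∃ T, T = g ^ 2 := ⟨_, rfl⟩
  obtain ⟨h, hh⟩ : ∃ h, h = 2 * g := ⟨_, rfl⟩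
  obtain ⟨N, hN⟩ : ∃ N, N = 2 * T * (2 * h) + (2 * h) + T + 5 := ⟨_, rfl⟩
  have hh0 : 0 < h := by omega
  obtain ⟨a, ha⟩ : ∃ a, a = List.replicate (2 * h) ((2 ^ (T + 2) : ℕ) : ℤ) := ⟨_, rfl⟩
  have hw := eS_word (n := T) (P := 2 * h) (T := T) (N := N) hN.ge (by omega)
  rw [← ha] at hw
  have hP1 : Rel (Pw a T) (Rw a ++ eS T (2 * h) T N 0) (4 * (T + 1) * S a) := by
    apply (Pw_sep a T).congr rfl
    rw [rep_succ, z_append, z_append, hw]
  have hP2 : Rel (Pw a T) (eS T (2 * h) T N 0 ++ Rw a) (4 * (T + 1) * S a) := by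
    apply (Pw_sep a T).congr rfl
    rw [rep_succ', z_append, z_append, hw]
  obtain ⟨G, H, r2, r1⟩ := gadget (e := eS T (2 * h) T N) (f := fS T (2 * h) T N) T
    (fun i hi => eS_rel hN.ge i hi) (fun i hi => fS_rel hN.ge i hi) ef_zero ef_end (Pw_full a T) hP1 hP2
  have hup := φS_sum_le (n := T) (P := 2 * h) (T := T) (N := N)
  have hlo := εS_sum_ge (n := T) (h := h) (T := T) (N := N) hh0 (by rw [hT, hh]; apply le_of_eq; ring) hN.ge
  have hS : S a = 2 * h * 2 ^ (T + 2) := by rw [ha]; exact S_replicate _ _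
  rw [hS] at r1 r2
  obtain ⟨c1, hc1⟩ : ∃ c1, c1 = ∑ i ∈ Finset.range (T + 1), φS T (2 * h) T N i + 2 * (4 * (T + 1) * (2 * h * 2 ^ (T + 2))) := ⟨_, rfl⟩
  obtain ⟨c2, hc2⟩ : ∃ c2, c2 = ∑ i ∈ Finset.range (T + 1), εS T (2 * h) T N i + 2 * (4 * (T + 1) * (2 * h * 2 ^ (T + 2))) := ⟨_, rfl⟩
  rw [← hc1] at r1
  rw [← hc2] at r2
  have hT1 : 1 ≤ T := by rw [hT]; exact Nat.one_le_pow _ _ hg0
  have b1 : c1 ≤ 2 ^ (T + 1) * (152 * g ^ 3) := by
    have e1 : 2 ^ (T + 1) * (4 * T * (2 * h) + T * (2 * (2 * h))) + 2 * (4 * (T + 1) * (2 * h * 2 ^ (T + 2)))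
        = 2 ^ (T + 1) * (88 * g ^ 3 + 64 * g) := by
      rw [show T + 2 = T + 1 + 1 by ring, pow_succ 2 (T + 1)]
      rw [hh]
      generalize 2 ^ (T + 1) = q
      rw [hT]; ring
    calc c1 ≤ 2 ^ (T + 1) * (4 * T * (2 * h) + T * (2 * (2 * h))) + 2 * (4 * (T + 1) * (2 * h * 2 ^ (T + 2))) := by
          rw [hc1]; exact Nat.add_le_add_right hup _
      _ = 2 ^ (T + 1) * (88 * g ^ 3 + 64 * g) := e1
      _ ≤ 2 ^ (T + 1) * (152 * g ^ 3) := by
          apply Nat.mul_le_mul_left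
          have : g ≤ g ^ 3 := Nat.le_self_pow (by norm_num) g
          omega
  have b2 : 2 ^ (T + 1) * g ^ 4 ≤ c2 := by
    calc 2 ^ (T + 1) * g ^ 4 ≤ 2 ^ (T + 1) * (T * (2 * T - 1)) := by
          apply Nat.mul_le_mul_left
          have : g ^ 4 = T * T := by rw [hT]; ring
          rw [this]
          apply Nat.mul_le_mul_left
          omega
      _ ≤ _ := hlo
      _ ≤ c2 := by rw [hc2]; exact Nat.le_add_right _ _
  have b3 : (k + 2) * c1 ≤ c2 := by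
    calc (k + 2) * c1 ≤ (k + 2) * (2 ^ (T + 1) * (152 * g ^ 3)) := Nat.mul_le_mul_left _ b1
      _ = 2 ^ (T + 1) * g ^ 4 := by
          have : g ^ 4 = (152 * (k + 2)) * g ^ 3 := by rw [← hg]; ring
          rw [this]; ring
      _ ≤ c2 := b2
  have b4 : 0 < c1 := by
    have : 0 < 2 * (4 * (T + 1) * (2 * h * 2 ^ (T + 2))) := by positivity
    omega
  refine ⟨G, H, c1, c2, r1, r2, ?_, ?_⟩
  · nlinarith
  · nlinarith

theorem main (k : ℕ) : ∃ d n : ℕ, 0 < d ∧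
      ∀ c : (Fin n → ℤ) → Fin k,
        ∃ x v : Fin n → ℤ, (∑ i, |v i|) = (d : ℤ) ∧
          c (x - v) = c x ∧ c x = c (x + v) := by
  obtain ⟨G, H, c1, c2, h1, h2, hlt, hk⟩ := exists_gadget k
  have hcl := clique_of_gadget h1 h2 k hlt hk
  obtain ⟨n, hn⟩ := of_clique k ((c2 - c1) * c2) _ hcl
  refine ⟨(c2 - c1) * c2, n, ?_, hn⟩
  apply Nat.mul_pos <;> omega

end H330L1
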